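import Pool.Agent.Helper78.WK3.StA

/-!
Project WK3, module K3: the kernel of `ev3` is the image of `u - 1`.
-/

set_option autoImplicit false

namespace Pool.Agent.Helper66.WK3

open Pool.Agent.Helper78.WK3 Pool.Agent.Helper78.W3 Pool.Agent.Helper14.W3 Pool.Agent.Helper14.CV

private lemma sym3_mono {R : Type} [AddCommGroup R] {s s' : ℕ} (hs : s ≤ s') {G : ℤ → ℤ → R}
    (h : Sym3 0 s G) : Sym3 0 s' G :=
  ⟨h.1, fun a b c d hd hb hc => h.2 a b c d hd hb ((pow_dvd_pow 3 hs).trans hc)⟩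

theorem hK3 (hKs : Ks3) (hBse : Bse3) : Kk3 := by
  intro m G hm
  induction m, hm using Nat.le_induction generalizing G with
  | base =>
    intro hS hW hst hev
    obtain ⟨G', ψ, hG', hψ, hW', hst', hev', hG⟩ := hKs 3 G le_rfl hS hW hst hev
    have h0 : EqC G' 0 := by
      refine hBse G' hG' hW' hst' ?_
      have h1 := hev' 0 0
      exact sub_eq_zero.1 h1
    refine ⟨ψ, hψ, ?_⟩
    have h2 := h0.add (EqC.refl (act 3 0 0 1 ψ - ψ))
    rw [zero_add] at h2
    exact (hG.trans h2).symm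
  | succ k hk ih =>
    intro hS hW hst hev
    obtain ⟨G', ψ, hG', hψ, hW', hst', hev', hG⟩ := hKs (k + 1) G (by omega) hS hW hst hev
    obtain ⟨ψ', hψ', he⟩ := ih G' hG' hW' hst' hev'
    refine ⟨ψ' + ψ, (sym3_mono (by omega) hψ').add hψ, ?_⟩
    have h3 := he.add (EqC.refl (act 3 0 0 1 ψ - ψ))
    have h4 : act 3 0 0 1 (ψ' + ψ) - (ψ' + ψ) =
        act 3 0 0 1 ψ' - ψ' + (act 3 0 0 1 ψ - ψ) := by
      rw [act_add]
      abel
    rw [h4]
    exact h3.trans hG.symm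

end Pool.Agent.Helper66.WK3
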